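import Pool.Agent.helper73.SHL.Spec

set_option autoImplicit false

namespace Pool.Agent.SHL

open Matrix Module

/-- denominators -/
lemma ORD_den {R : Type} [Ring R] [Algebra ℚ R] (O : Subring R)
    (hO : Submodule.span ℚ (O : Set R) = ⊤) (a : R) : ∃ N : ℕ, 0 < N ∧ N • a ∈ O := by
  have ha : a ∈ Submodule.span ℚ (O : Set R) := hO ▸ Submodule.mem_top
  induction ha using Submodule.span_induction with
  | mem x hx => exact ⟨1, one_pos, by simpa using hx⟩
  | zero => exact ⟨1, one_pos, by simp⟩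
  | add x y _ _ ihx ihy =>
    obtain ⟨N, hN, h1⟩ := ihx
    obtain ⟨M, hM, h2⟩ := ihy
    refine ⟨N * M, Nat.mul_pos hN hM, ?_⟩
    rw [smul_add]
    refine O.add_mem ?_ ?_
    · rw [mul_comm, mul_smul]
      exact nsmul_mem h1 M
    · rw [mul_smul]
      exact nsmul_mem h2 N
  | smul q x _ ih =>
    obtain ⟨N, hN, h1⟩ := ih
    refine ⟨N * q.den, Nat.mul_pos hN q.den_pos, ?_⟩
    have h2 : (N * q.den) • (q • x) = q.num • (N • x) := by
      rw [← Nat.cast_smul_eq_nsmul ℚ, ← Int.cast_smul_eq_zsmul ℚ, ← Nat.cast_smul_eq_nsmul ℚ N x,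
        smul_smul, smul_smul]
      congr 1
      push_cast
      have h3 : (q.den : ℚ) * q = q.num := Rat.den_mul_eq_num q
      linear_combination (N : ℚ) * h3
    rw [h2]
    exact zsmul_mem h1 _

lemma ORD_denfg {R : Type} [Ring R] [Algebra ℚ R] (O : Subring R)
    (hO : Submodule.span ℚ (O : Set R) = ⊤) (Y : Submodule ℤ R) (hY : Y.FG) (f : R →+ R) :
    ∃ N : ℕ, 0 < N ∧ ∀ a ∈ Y, N • f a ∈ O := by
  obtain ⟨S, rfl⟩ := hY
  choose N hN hNO using fun a => ORD_den O hO (f a)
  refine ⟨∏ s ∈ S, N s, Finset.prod_pos fun s _ => hN s, fun a ha => ?_⟩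
  induction ha using Submodule.span_induction with
  | mem x hx =>
    have h1 : N x ∣ ∏ s ∈ S, N s := Finset.dvd_prod_of_mem _ hx
    obtain ⟨c, hc⟩ := h1
    rw [hc, mul_comm, mul_smul]
    exact nsmul_mem (hNO x) c
  | zero => simp
  | add x y _ _ ihx ihy =>
    rw [map_add, smul_add]
    exact O.add_mem ihx ihy
  | smul c x _ ih =>
    have h1 : f (c • x) = c • f x := map_zsmul f c x
    rw [h1, smul_comm]
    exact zsmul_mem ih c

theorem ORD_core {D R : Type} [DivisionRing D] [Algebra ℚ D] [FiniteDimensional ℚ D] [Ring R]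
    [Algebra ℚ R] (d : ℕ) (hd : 0 < d) (hD : finrank ℚ D = d * d)
    (ε : D →+ R) (κ : R → D) (hεm : ∀ y z, ε (y * z) = ε y * ε z)
    (hκ : ∀ r, ε 1 * r * ε 1 = ε (κ r))
    (hinj : ∀ (y : D) (a : R), ε 1 * a = a → a ≠ 0 → ε y * a = 0 → y = 0) (hε1 : ε 1 ≠ 0)
    (τ : R →ₗ[ℚ] ℚ) (O : Subring R) (hτ : ∀ x y, τ (x * y) = τ (y * x))
    (hfg : ∃ M : Submodule ℤ R, M.FG ∧ ∀ x ∈ O, x ∈ M)
    (hspan : Submodule.span ℚ (O : Set R) = ⊤)
    (hdual : ∀ x, (∀ y ∈ O, ∃ z : ℤ, τ (x * y) = z) → x ∈ O)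
    (htr : ∀ x : D, (d : ℚ) * τ (ε x) = tra x)
    (hint : ∀ x : D, IsIntegral ℤ x → ∃ z : ℤ, τ (ε x) = z) :
    ∃ (x : Fin (d * d) → D) (T : Matrix (Fin (d * d)) (Fin (d * d)) ℤ), LinearIndependent ℚ x ∧
      (∀ i j, ∃ c : Fin (d * d) → ℤ, x i * x j = ∑ l, c l • x l) ∧
      (∀ i j, tra (x i * x j) = d * T i j) ∧ T.det ^ 2 = 1 := by
  classical
  obtain ⟨M, hMfg, hMO⟩ := hfg
  have hε11 : ε 1 * ε 1 = ε 1 := by rw [← hεm, one_mul]
  have hε1m : ∀ y, ε 1 * ε y = ε y := fun y => by rw [← hεm, one_mul]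
  have hεm1 : ∀ y, ε y * ε 1 = ε y := fun y => by rw [← hεm, mul_one]
  -- the module `X`
  let XA : AddSubgroup R :=
    { carrier := {a | a ∈ O ∧ ε 1 * a = a}
      add_mem' := fun {a b} ha hb => ⟨O.add_mem ha.1 hb.1, by rw [mul_add, ha.2, hb.2]⟩
      zero_mem' := ⟨O.zero_mem, mul_zero _⟩
      neg_mem' := fun {a} ha => ⟨O.neg_mem ha.1, by rw [mul_neg, ha.2]⟩ }
  have hXA : ∀ a, a ∈ XA ↔ a ∈ O ∧ ε 1 * a = a := fun a => Iff.rfl
  let X : Submodule ℤ R := AddSubgroup.toIntSubmodule XA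
  have hX : ∀ a, a ∈ X ↔ a ∈ O ∧ ε 1 * a = a := fun a => Iff.rfl
  have hXM : X ≤ M := fun a ha => hMO a ha.1
  have hnM : IsNoetherian ℤ M := isNoetherian_of_fg_of_noetherian M hMfg
  have hXfg : ∀ Y : Submodule ℤ R, Y ≤ X → Y.FG := fun Y hY =>
    isNoetherian_submodule.mp hnM Y (hY.trans hXM)
  -- a nonzero element
  obtain ⟨N₀, hN₀, hN₀O⟩ := ORD_den O hspan (ε 1)
  set a₀ : R := N₀ • ε 1 with ha₀
  have ha₀X : a₀ ∈ X := ⟨hN₀O, by rw [ha₀, mul_smul_comm, hε11]⟩
  have ha₀0 : a₀ ≠ 0 := by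
    intro h
    rw [ha₀, ← Nat.cast_smul_eq_nsmul ℚ] at h
    rcases smul_eq_zero.mp h with h1 | h1
    · exact hN₀.ne' (by exact_mod_cast h1)
    · exact hε1 h1
  -- the order
  let OS : Subring D :=
    { carrier := {y | ∀ a ∈ X, ε y * a ∈ O}
      add_mem' := fun {y z} hy hz a ha => by
        rw [map_add, add_mul]
        exact O.add_mem (hy a ha) (hz a ha)
      zero_mem' := fun a ha => by
        rw [map_zero, zero_mul]
        exact O.zero_mem
      neg_mem' := fun {y} hy a ha => by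
        rw [map_neg, neg_mul]
        exact O.neg_mem (hy a ha)
      one_mem' := fun a ha => by
        rw [ha.2]
        exact ha.1
      mul_mem' := fun {y z} hy hz a ha => by
        rw [hεm, mul_assoc]
        refine hy _ ⟨hz a ha, ?_⟩
        rw [← mul_assoc, hε1m] }
  have hOS : ∀ y, y ∈ OS ↔ ∀ a ∈ X, ε y * a ∈ O := fun y => Iff.rfl
  let OD : Submodule ℤ D := AddSubgroup.toIntSubmodule OS.toAddSubgroup
  have hOD : ∀ y, y ∈ OD ↔ y ∈ OS := fun y => Iff.rfl
  let f : D →ₗ[ℤ] R := ((AddMonoidHom.mulRight a₀).comp ε).toIntLinearMap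
  have hf : ∀ y, f y = ε y * a₀ := fun y => rfl
  have hfinj : Function.Injective f := by
    rw [injective_iff_map_eq_zero]
    intro y hy
    exact hinj y a₀ ha₀X.2 ha₀0 (by rw [← hf]; exact hy)
  have hODfg : OD.FG := by
    apply Submodule.fg_of_fg_map_injective f hfinj
    apply hXfg
    rintro _ ⟨y, hy, rfl⟩
    refine ⟨hy a₀ ha₀X, ?_⟩
    rw [hf, ← mul_assoc, hε1m]
  have hODint : ∀ y ∈ OS, IsIntegral ℤ y := by
    intro y hy
    exact IsIntegral.of_mem_of_fg (subalgebraOfSubring OS) hODfg y hy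
  -- denominators in D
  have hdenD : ∀ y : D, ∃ N : ℕ, 0 < N ∧ N • y ∈ OS := by
    intro y
    obtain ⟨N, hN, h⟩ := ORD_denfg O hspan X (hXfg X le_rfl) (AddMonoidHom.mulLeft (ε y))
    refine ⟨N, hN, (hOS _).2 fun a ha => ?_⟩
    rw [map_nsmul, smul_mul_assoc]
    exact h a ha
  have hchar : CharZero D := algebraRat.charZero D
  have hfin : Module.Finite ℤ OD := Module.Finite.iff_fg.2 hODfg
  have hfree : Module.Free ℤ OD := inferInstance
  -- ℤ-bases of `OD` are ℚ-bases of `D`
  have hli : ∀ (ι : Type) (b : Basis ι ℤ OD), LinearIndependent ℚ (fun i => (b i : D)) := by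
    intro ι b
    rw [← LinearIndependent.iff_fractionRing ℤ ℚ]
    exact b.linearIndependent.map' OD.subtype (Submodule.ker_subtype OD)
  have hsp : ∀ (ι : Type) [Fintype ι] (b : Basis ι ℤ OD),
      ⊤ ≤ Submodule.span ℚ (Set.range (fun i => (b i : D))) := by
    intro ι _ b y _
    obtain ⟨N, hN, hy⟩ := hdenD y
    have h1 : ∑ i, b.repr ⟨N • y, hy⟩ i • b i = ⟨N • y, hy⟩ := b.sum_repr _
    have h2 : ∑ i, b.repr ⟨N • y, hy⟩ i • (b i : D) = N • y := by
      have := congrArg (OD.subtype) h1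
      rw [map_sum] at this
      exact this
    have hN' : (N : ℚ) ≠ 0 := by exact_mod_cast hN.ne'
    have h3 : y = (N : ℚ)⁻¹ • (N • y) := by
      rw [← Nat.cast_smul_eq_nsmul ℚ, smul_smul, inv_mul_cancel₀ hN', one_smul]
    rw [h3, ← h2]
    refine Submodule.smul_mem _ _ (Submodule.sum_mem _ fun i _ => ?_)
    rw [← Int.cast_smul_eq_zsmul ℚ]
    exact Submodule.smul_mem _ _ (Submodule.subset_span ⟨i, rfl⟩)
  have hcard : finrank ℤ OD = d * d := by
    have h1 := Module.finrank_eq_card_basis (Basis.mk (hli _ (Module.finBasis ℤ OD)) (hsp _ (Module.finBasis ℤ OD)))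
    rw [hD, Fintype.card_fin] at h1
    exact h1.symm
  let b : Basis (Fin (d * d)) ℤ OD := (Module.finBasis ℤ OD).reindex (finCongr hcard)
  let x : Fin (d * d) → D := fun i => (b i : D)
  have hxS : ∀ i, x i ∈ OS := fun i => (b i).2
  have hxli : LinearIndependent ℚ x := hli _ b
  let B : Basis (Fin (d * d)) ℚ D := Basis.mk hxli (hsp _ b)
  have hB : ∀ i, B i = x i := fun i => by simp [B]
  have hrep : ∀ y ∈ OS, ∃ c : Fin (d * d) → ℤ, y = ∑ l, c l • x l := by
    intro y hy
    refine ⟨fun l => b.repr ⟨y, hy⟩ l, ?_⟩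
    have h1 : ∑ i, b.repr ⟨y, hy⟩ i • b i = ⟨y, hy⟩ := b.sum_repr _
    have h2 := congrArg (OD.subtype) h1
    rw [map_sum] at h2
    exact h2.symm
  have hTex : ∀ i j, ∃ z : ℤ, τ (ε (x i * x j)) = z := fun i j =>
    hint _ (hODint _ (OS.mul_mem (hxS i) (hxS j)))
  choose T hT using hTex
  -- the self-duality of `OS`
  have hself : ∀ y : D, (∀ l, ∃ z : ℤ, τ (ε (y * x l)) = z) → y ∈ OS := by
    intro y hy
    have hy2 : ∀ z ∈ OS, ∃ w : ℤ, τ (ε (y * z)) = w := by
      intro z hz
      obtain ⟨c, hc⟩ := hrep z hz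
      choose w hw using hy
      refine ⟨∑ l, c l * w l, ?_⟩
      rw [hc, Finset.mul_sum, map_sum, map_sum]
      push_cast
      refine Finset.sum_congr rfl fun l _ => ?_
      rw [mul_smul_comm, map_zsmul, map_zsmul, hw, zsmul_eq_mul]
    rw [hOS]
    intro a ha
    apply hdual
    intro r hr
    have h1 : ε y * a * r = ε 1 * (ε y * a * r) := by
      rw [← mul_assoc, ← mul_assoc, hε1m]
    have h2 : τ (ε y * a * r) = τ (ε (y * κ (a * r))) := by
      rw [h1, hτ, hεm, ← hκ (a * r), ← mul_assoc (ε 1) a r, ha.2, ← mul_assoc (ε y), ← mul_assoc (ε y)]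
    rw [h2]
    apply hy2
    rw [hOS]
    intro a' ha'
    rw [← hκ, ← mul_assoc (ε 1) a r, ha.2, mul_assoc (a * r), ha'.2]
    exact O.mul_mem (O.mul_mem ha.1 hr) ha'.1
  refine ⟨x, T, hxli, fun i j => hrep _ (OS.mul_mem (hxS i) (hxS j)), fun i j => ?_, ?_⟩
  · rw [← htr, hT]
  · -- the determinant
    let TQ : Matrix (Fin (d * d)) (Fin (d * d)) ℚ := (Matrix.of T).map (Int.cast : ℤ → ℚ)
    have hτ1 : τ (ε 1) ≠ 0 := by
      intro h
      have h1 := htr 1
      rw [h, mul_zero] at h1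
      have h2 : tra (1 : D) = (finrank ℚ D : ℚ) := by
        unfold tra
        have : LinearMap.mulLeft ℚ (1 : D) = LinearMap.id := by
          ext y
          simp
        rw [this, LinearMap.trace_id]
      rw [h2, hD] at h1
      have : ((d * d : ℕ) : ℚ) ≠ 0 := by
        exact_mod_cast (Nat.mul_pos hd hd).ne'
      exact this h1.symm
    have hdet : TQ.det ≠ 0 := by
      intro h
      obtain ⟨v, hv, hvT⟩ := Matrix.exists_vecMul_eq_zero_iff.2 h
      set y : D := ∑ i, v i • x i with hy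
      have hy0 : y ≠ 0 := by
        intro h0
        apply hv
        funext i
        exact (Fintype.linearIndependent_iff.1 hxli) v h0 i
      have h1 : ∀ l, τ (ε (y * x l)) = 0 := by
        intro l
        have h2 := congrFun hvT l
        rw [Matrix.vecMul, dotProduct] at h2
        have hεq : ∀ (q : ℚ) (z : D), ε (q • z) = q • ε z := fun q z => map_rat_smul ε q z
        rw [hy, Finset.sum_mul, map_sum, map_sum]
        refine Eq.trans (Finset.sum_congr rfl fun i _ => ?_) h2
        rw [smul_mul_assoc, hεq, map_smul, hT]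
        simp [TQ]
      -- hence for all z
      have h3 : ∀ z : D, τ (ε (y * z)) = 0 := by
        intro z
        have h4 : z = ∑ l, B.repr z l • x l := by
          conv_lhs => rw [← B.sum_repr z]
          exact Finset.sum_congr rfl fun l _ => by rw [hB]
        rw [h4, Finset.mul_sum, map_sum, map_sum]
        refine Finset.sum_eq_zero fun l _ => ?_
        have hεq : ∀ (q : ℚ) (z : D), ε (q • z) = q • ε z := fun q z => map_rat_smul ε q z
        rw [mul_smul_comm, hεq, map_smul, h1, smul_zero]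
      apply hτ1
      have := h3 y⁻¹
      rwa [mul_inv_cancel₀ hy0] at this
    -- the dual basis
    have hinv : TQ⁻¹ * TQ = 1 := Matrix.nonsing_inv_mul _ (isUnit_iff_ne_zero.2 hdet)
    have hC : ∀ i, ∃ c : Fin (d * d) → ℤ, ∀ l, (c l : ℚ) = TQ⁻¹ i l := by
      intro i
      set y : D := ∑ j, TQ⁻¹ i j • x j with hy
      have hyS : y ∈ OS := by
        apply hself
        intro l
        have hεq : ∀ (q : ℚ) (z : D), ε (q • z) = q • ε z := fun q z => map_rat_smul ε q z
        have h1 : τ (ε (y * x l)) = (TQ⁻¹ * TQ) i l := by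
          rw [hy, Finset.sum_mul, map_sum, map_sum, Matrix.mul_apply]
          refine Finset.sum_congr rfl fun j _ => ?_
          rw [smul_mul_assoc, hεq, map_smul, hT]
          simp [TQ]
        rw [h1, hinv, Matrix.one_apply]
        split_ifs
        · exact ⟨1, by simp⟩
        · exact ⟨0, by simp⟩
      obtain ⟨c, hc⟩ := hrep y hyS
      refine ⟨c, fun l => ?_⟩
      have h2 : ∑ j, ((c j : ℚ) - TQ⁻¹ i j) • x j = 0 := by
        simp only [sub_smul, Finset.sum_sub_distrib]
        rw [← hy, sub_eq_zero]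
        refine Eq.trans (Finset.sum_congr rfl fun j _ => ?_) hc.symm
        rw [Int.cast_smul_eq_zsmul]
      have h3 := (Fintype.linearIndependent_iff.1 hxli) _ h2 l
      linarith
    choose C hC using hC
    have h4 : (Matrix.of C) * (Matrix.of T) = 1 := by
      have h5 : ((Matrix.of C) * (Matrix.of T)).map (Int.castRingHom ℚ) =
          (1 : Matrix (Fin (d * d)) (Fin (d * d)) ℤ).map (Int.castRingHom ℚ) := by
        rw [Matrix.map_mul]
        have h6 : (Matrix.of C).map (Int.castRingHom ℚ) = TQ⁻¹ := by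
          ext i l
          simpa using hC i l
        rw [h6]
        have h7 : (Matrix.of T).map (Int.castRingHom ℚ) = TQ := rfl
        rw [h7, hinv]
        simp
      ext i j
      have h8 := congrFun (congrFun h5 i) j
      simp only [Matrix.map_apply] at h8
      exact (RingHom.injective_int (Int.castRingHom ℚ)) h8
    have h9 : (Matrix.of C).det * (Matrix.of T).det = 1 := by
      rw [← Matrix.det_mul, h4, Matrix.det_one]
    have h10 : IsUnit (Matrix.of T).det := IsUnit.of_mul_eq_one_right _ h9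
    have h11 := Int.isUnit_iff.1 h10
    change (Matrix.of T).det ^ 2 = 1
    rcases h11 with h | h <;> rw [h] <;> norm_num

theorem ORD : ORD_stmt := by
  intro k d hk D _ _ _ τ O hD hd hτ hM hspan hdual htr hint
  classical
  obtain ⟨M, hMfg, hMO⟩ := hM
  set i0 : Fin k := ⟨0, hk⟩ with hi0
  let ε : D →+ Matrix (Fin k) (Fin k) D :=
    { toFun := fun y => Matrix.single i0 i0 y
      map_zero' := Matrix.single_zero _ _
      map_add' := fun y z => Matrix.single_add _ _ _ _ }
  have hε : ∀ y, ε y = Matrix.single i0 i0 y := fun y => rfl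
  refine ORD_core d hd hD ε (fun r => r i0 i0) ?_ ?_ ?_ ?_ τ O hτ ?_ hspan hdual htr hint
  · intro y z
    rw [hε, hε, hε, Matrix.single_mul_single_same]
  · intro r
    rw [hε, hε]
    ext i j
    by_cases hi : i = i0 <;> by_cases hj : j = i0
    · subst hi; subst hj
      simp [Matrix.mul_apply, Matrix.single_apply]
    all_goals simp [Matrix.mul_apply, Matrix.single_apply, hi, hj, eq_comm]
  · intro y a ha ha0 hya
    by_contra hy
    apply ha0
    have h1 : ∀ j, a i0 j = 0 := by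
      intro j
      have h2 := congrFun (congrFun hya i0) j
      rw [hε] at h2
      simp [Matrix.mul_apply, Matrix.single_apply] at h2
      rcases h2 with h3 | h3
      · exact absurd h3 hy
      · exact h3
    rw [← ha, hε]
    ext i j
    by_cases hi : i = i0
    · subst hi
      simp [Matrix.mul_apply, Matrix.single_apply, h1]
    · simp [Matrix.mul_apply, Matrix.single_apply, hi, eq_comm]
  · intro h
    have h2 := congrFun (congrFun h i0) i0
    rw [hε] at h2
    simp [Matrix.single_apply] at h2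
  · exact ⟨M, hMfg, fun x hx => (hMO x).2 hx⟩

end Pool.Agent.SHL
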